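import Pool.Agent.W622.ETC.Stm

set_option autoImplicit false
set_option maxHeartbeats 4000000

/-! MP_d26ff6_al: the part AG3 (case `p ≥ 3`, all blocks good). -/

namespace Pool.Agent.W82.ELT

open Pool.Agent.W622.ETC Module

section
variable {V : Type} [AddCommGroup V] [Module (ZMod 2) V] [Finite V]

/-- two members of an independent set are disjoint -/
theorem disj_of_indep {s : Set (DSub V)} (h : sSupIndep s) {X Y : DSub V} (hX : X ∈ s) (hY : Y ∈ s)
    (hne : X ≠ Y) : Disjoint X Y :=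
  h.pairwiseDisjoint hX hY hne

/-- an element common to a member and to the sum of others is zero -/
theorem zero_of_indep {s t : Set (DSub V)} (h : sSupIndep s) {X : DSub V} (hX : X ∈ s)
    (ht : t ⊆ s \ {X}) {f : Dl V} (hf : f ∈ X) (hf' : f ∈ sSup t) : f = 0 := by
  have h1 : Disjoint X (sSup (s \ {X})) := h hX
  have h2 : f ∈ X ⊓ sSup (s \ {X}) := ⟨hf, sSup_le_sSup ht hf'⟩
  rwa [h1.eq_bot, Submodule.mem_bot] at h2

theorem mem_of_sp {ω : Frm V} {X : DSub V} (h : sp ω = X) (b : V) : ω b ∈ X := by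
  rw [← h]; exact ⟨b, rfl⟩

theorem t_AG3 (hGLUE : S_GLUE) (hOM : S_OM) (hHH : S_HH) (hSIX : S_SIX) : S_AG3 := by
  intro V _ _ _ A e p hCB hgood he hp hn hdim hcard hbasis
  classical
  have hA : AltFam A := hCB.mc.alt
  have hloc : ∀ X, Block A X → LocBlock A X := by
    intro X hX
    rcases hX with h | h
    · exact absurd h.1 (hCB.nc X)
    · exact h
  have hom : ∀ X, Block A X → om A X ∈ A ∧ sp (om A X) = X := by
    intro X hX
    obtain ⟨h1, _, h3, _⟩ := hOM V A X hA (hloc X hX)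
    exact ⟨h1, h3⟩
  -- p + 1 different blocks
  obtain ⟨S, hSsub, hScard⟩ := Set.exists_subset_card_eq hcard
  have hSfin : S.Finite := Set.toFinite S
  set T₀ : Finset (DSub V) := hSfin.toFinset with hT₀
  have hT₀c : T₀.card = p + 1 := by
    rw [hT₀, ← Set.ncard_eq_toFinset_card S hSfin, hScard]
  have hT₀b : ∀ X ∈ T₀, Block A X := by
    intro X hX
    rw [hT₀, Set.Finite.mem_toFinset] at hX
    exact hSsub hX
  -- three different members
  obtain ⟨X₁, X₂, X₃, h1, h2, h3, h12, h13, h23⟩ :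
      ∃ a b c, a ∈ T₀ ∧ b ∈ T₀ ∧ c ∈ T₀ ∧ a ≠ b ∧ a ≠ c ∧ b ≠ c := by
    have := Finset.two_lt_card_iff.mp (show 2 < T₀.card by omega)
    obtain ⟨a, b, c, ha, hb, hc, hab, hac, hbc⟩ := this
    exact ⟨a, b, c, ha, hb, hc, hab, hac, hbc⟩
  have hd12 : Disjoint X₁ X₂ := by
    have hb := hbasis (T₀.erase X₃) (fun X hX => hT₀b X (Finset.mem_of_mem_erase hX))
      (by rw [Finset.card_erase_of_mem h3, hT₀c]; rfl)
    exact disj_of_indep hb.1 (by simp [h1, h13]) (by simp [h2, h23]) h12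
  have hnz : ∀ X, Block A X → ∃ x ∈ X, x ≠ 0 := by
    intro X hX
    have : X ≠ ⊥ := by
      rintro rfl
      have := hdim ⊥ hX
      rw [finrank_bot] at this
      omega
    exact (Submodule.ne_bot_iff X).mp this
  obtain ⟨x₁, hx₁, hx₁0⟩ := hnz X₁ (hT₀b _ h1)
  obtain ⟨x₂, hx₂, hx₂0⟩ := hnz X₂ (hT₀b _ h2)
  -- h ≠ 0
  have hh0 : x₁ + x₂ ≠ 0 := by
    intro h0
    have : x₁ = x₂ := add_eq_zero'.mp h0
    have h5 : x₁ ∈ X₁ ⊓ X₂ := ⟨hx₁, this ▸ hx₂⟩
    rw [hd12.eq_bot, Submodule.mem_bot] at h5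
    exact hx₁0 h5
  -- T
  set T : Finset (DSub V) := T₀.erase X₂ with hT
  have hTb : ∀ X ∈ T, Block A X := fun X hX => hT₀b X (Finset.mem_of_mem_erase hX)
  have hTbas := hbasis T hTb (by rw [hT, Finset.card_erase_of_mem h2, hT₀c]; rfl)
  have hTbas' := hbasis (T₀.erase X₁) (fun X hX => hT₀b X (Finset.mem_of_mem_erase hX))
      (by rw [Finset.card_erase_of_mem h1, hT₀c]; rfl)
  have hX₁T : X₁ ∈ T := by rw [hT, Finset.mem_erase]; exact ⟨h12, h1⟩
  set ζ : Frm V := ∑ X ∈ T, om A X with hζ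
  have hζA : ζ ∈ A := Submodule.sum_mem _ fun X hX => (hom X (hTb X hX)).1
  -- decomposition of h
  have hmem : x₁ + x₂ ∈ (⨆ X ∈ T, X) := by
    have : (⨆ X ∈ T, X) = (⊤ : DSub V) := by
      rw [← hTbas.2, sSup_eq_iSup]; rfl
    rw [this]; exact Submodule.mem_top
  obtain ⟨μ, hμ⟩ := (Submodule.mem_iSup_finset_iff_exists_sum (s := T) (p := fun X => X) (x₁ + x₂)).mp hmem
  have hα : ∀ X : DSub V, ∃ v : V, X ∈ T → om A X v = (μ X : Dl V) := by
    intro X
    by_cases hX : X ∈ T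
    · have h6 : (μ X : Dl V) ∈ sp (om A X) := by
        rw [(hom X (hTb X hX)).2]; exact (μ X).2
      obtain ⟨v, hv⟩ := h6
      exact ⟨v, fun _ => hv⟩
    · exact ⟨0, fun h => absurd h hX⟩
  choose α hα using hα
  obtain ⟨a, ha⟩ := hGLUE V (T : Set (DSub V)) α hTbas.1
  have homa : ∀ X ∈ T, om A X a = (μ X : Dl V) := by
    intro X hX
    rw [← hα X hX]
    have hm := hom X (hTb X hX)
    refine LinearMap.ext fun b => ?_
    rw [(hA _ hm.1).symm a b, (hA _ hm.1).symm (α X) b]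
    exact ha X hX _ (mem_of_sp hm.2 b)
  have hζa : ζ a = x₁ + x₂ := by
    rw [hζ, LinearMap.sum_apply, ← hμ]
    exact Finset.sum_congr rfl homa
  have hne : om A X₁ a ≠ x₁ := by
    intro hc
    have h7 : x₂ = ∑ X ∈ T.erase X₁, om A X a := by
      have h8 : ∑ X ∈ T, om A X a = x₁ + x₂ := by
        rw [← LinearMap.sum_apply]; exact hζa
      rw [← Finset.add_sum_erase T _ hX₁T, hc] at h8
      exact (add_left_cancel h8).symm
    have h9 : x₂ ∈ sSup ((T.erase X₁ : Finset (DSub V)) : Set (DSub V)) := by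
      rw [h7]
      refine Submodule.sum_mem _ fun X hX => ?_
      have hm := hom X (hTb X (Finset.mem_of_mem_erase hX))
      have : X ≤ sSup ((T.erase X₁ : Finset (DSub V)) : Set (DSub V)) := le_sSup hX
      exact this (mem_of_sp hm.2 a)
    apply hx₂0
    refine zero_of_indep hTbas'.1 (X := X₂) (by simp [h2, h12.symm]) ?_ hx₂ h9
    intro X hX
    simp only [hT, Finset.coe_erase, Set.mem_sdiff, Set.mem_singleton_iff, Finset.mem_coe] at hX ⊢
    exact ⟨⟨hX.1.1, hX.2⟩, hX.1.2⟩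
  have ha0 : a ≠ 0 := by
    rintro rfl
    rw [map_zero] at hζa
    exact hh0 hζa.symm
  have hG : ∀ X ∈ T₀, X ∈ GB A := fun X hX => ⟨hT₀b X hX, hgood X (hT₀b X hX)⟩
  have hHHa := hHH V A X₁ X₂ x₁ x₂ ζ a hCB (hG _ h1) (hG _ h2) h12 hx₁ hx₂ hx₁0 hζA hζa hne
  rw [hdim X₁ (hT₀b _ h1), hdim X₂ (hT₀b _ h2), hn] at hHHa
  have hBL : (BL A a).ncard < p := by
    by_contra hc
    push Not at hc
    obtain ⟨S', hS'sub, hS'card⟩ := Set.exists_subset_card_eq hc
    have hS'fin : S'.Finite := Set.toFinite S'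
    have hb := hbasis hS'fin.toFinset (fun X hX => by
      rw [Set.Finite.mem_toFinset] at hX
      exact (hS'sub hX).1) (by rw [← Set.ncard_eq_toFinset_card S' hS'fin, hS'card])
    have : (⊤ : DSub V) ≤ ann a := by
      rw [← hb.2]
      refine sSup_le fun X hX => ?_
      rw [Set.Finite.coe_toFinset] at hX
      exact (hS'sub hX).2
    exact ann_ne_top ha0 (top_le_iff.mp this)
  have hp3 : p = 3 := by
    by_contra hc
    obtain ⟨k, rfl⟩ : ∃ k, p = k + 4 := ⟨p - 4, by omega⟩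
    nlinarith
  subst hp3
  have he2 : e = 2 := by omega
  subst he2
  have hn6 : finrank (ZMod 2) V = 6 := by rw [hn]
  -- ζ₀
  have hm1 := hom X₁ (hT₀b _ h1)
  have hm2 := hom X₂ (hT₀b _ h2)
  have hdsp : Disjoint (sp (om A X₁)) (sp (om A X₂)) := by rw [hm1.2, hm2.2]; exact hd12
  have hsp0 : finrank (ZMod 2) (sp (om A X₁ + om A X₂)) = 4 := by
    rw [sp_add (hA _ hm1.1) (hA _ hm2.1) hdsp, hm1.2, hm2.2]
    have := Submodule.finrank_sup_add_finrank_inf_eq X₁ X₂
    rw [hd12.eq_bot, finrank_bot, hdim X₁ (hT₀b _ h1), hdim X₂ (hT₀b _ h2)] at this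
    omega
  obtain ⟨a₁, ha₁⟩ : ∃ v, om A X₁ v = x₁ := by
    have : x₁ ∈ sp (om A X₁) := by rw [hm1.2]; exact hx₁
    exact this
  obtain ⟨a₂, ha₂⟩ : ∃ v, om A X₂ v = x₂ := by
    have : x₂ ∈ sp (om A X₂) := by rw [hm2.2]; exact hx₂
    exact this
  obtain ⟨v₀, hv₁, hv₂⟩ := exists_glue hd12 a₁ a₂
  have hv1 : om A X₁ v₀ = x₁ := by
    rw [← ha₁]
    refine LinearMap.ext fun b => ?_
    rw [(hA _ hm1.1).symm v₀ b, (hA _ hm1.1).symm a₁ b]
    exact hv₁ _ (mem_of_sp hm1.2 b)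
  have hv2 : om A X₂ v₀ = x₂ := by
    rw [← ha₂]
    refine LinearMap.ext fun b => ?_
    rw [(hA _ hm2.1).symm v₀ b, (hA _ hm2.1).symm a₂ b]
    exact hv₂ _ (mem_of_sp hm2.2 b)
  refine hSIX V A (om A X₁ + om A X₂) ζ v₀ a (x₁ + x₂) hCB hn6 (A.add_mem hm1.1 hm2.1) hζA hsp0
    (by rw [LinearMap.add_apply, hv1, hv2]) hζa ?_ hh0 ?_
  · intro hc
    rw [LinearMap.add_apply] at hc
    have h10 : om A X₁ a + x₁ = om A X₂ a + x₂ := by
      have : om A X₁ a + x₁ + (om A X₂ a + x₂) = 0 := by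
        have h11 : om A X₁ a + x₁ + (om A X₂ a + x₂) = (om A X₁ a + om A X₂ a) + (x₁ + x₂) := by abel
        rw [h11, hc, vadd]
      exact add_eq_zero'.mp this
    have h12' : om A X₁ a + x₁ ∈ X₁ ⊓ X₂ := by
      refine ⟨X₁.add_mem ?_ hx₁, ?_⟩
      · have : om A X₁ a ∈ sp (om A X₁) := ⟨a, rfl⟩
        rwa [hm1.2] at this
      · rw [h10]
        refine X₂.add_mem ?_ hx₂
        have : om A X₂ a ∈ sp (om A X₂) := ⟨a, rfl⟩
        rwa [hm2.2] at this
    rw [hd12.eq_bot, Submodule.mem_bot] at h12'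
    exact hne (add_eq_zero'.mp h12')
  · intro X hX _ hhX
    by_cases hX1 : X = X₁
    · subst hX1
      have h13' : x₂ ∈ X := by
        have := X.add_mem hx₁ hhX
        rwa [add_cancel_left'] at this
      have : x₂ ∈ X ⊓ X₂ := ⟨h13', hx₂⟩
      rw [hd12.eq_bot, Submodule.mem_bot] at this
      exact hx₂0 this
    by_cases hX2 : X = X₂
    · subst hX2
      have h13' : x₁ ∈ X := by
        have := X.add_mem hhX hx₂
        rwa [add_cancel'] at this
      have : x₁ ∈ X₁ ⊓ X := ⟨hx₁, h13'⟩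
      rw [hd12.eq_bot, Submodule.mem_bot] at this
      exact hx₁0 this
    · have hb := hbasis {X, X₁, X₂} (by
        intro Y hY
        simp only [Finset.mem_insert, Finset.mem_singleton] at hY
        rcases hY with rfl | rfl | rfl
        · exact hX
        · exact hT₀b _ h1
        · exact hT₀b _ h2) (by
        rw [Finset.card_eq_three]
        exact ⟨X, X₁, X₂, hX1, hX2, h12, rfl⟩)
      apply hh0
      refine zero_of_indep hb.1 (X := X) (t := {X₁, X₂}) (by simp) ?_ hhX ?_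
      · intro Y hY
        simp only [Set.mem_insert_iff, Set.mem_singleton_iff] at hY
        rcases hY with rfl | rfl
        · simp [Ne.symm hX1]
        · simp [Ne.symm hX2]
      · rw [sSup_pair]
        exact Submodule.add_mem_sup hx₁ hx₂

end

end Pool.Agent.W82.ELT
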